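import Mathlib
import Pool.Agent.N753.SU.StmO
import Pool.Agent.N753.SU.NL
import Pool.Agent.N692.SU_R

/-!
# SU/OD3: odd degree, a polynomial with a root of small height
-/

set_option autoImplicit false
set_option linter.unusedSectionVars false

namespace Pool.Agent.N478.SU

open NumberField IsDedekindDomain Finset Pool.Agent.H691R3
open Pool.Agent.TH876.Loc hiding mx
open Pool.Agent.N753.LS Pool.Agent.N753.SF Pool.Agent.N753.SU Polynomial
open Pool.Agent.N692.SUR Height

variable {K : Type} [Field K] [NumberField K]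

/-- division by a root, with integral coefficients -/
theorem exists_quot (f : (𝓞 K)[X]) {z : K} (hz : aeval z f = 0) {q r : 𝓞 K}
    (hr : algebraMap (𝓞 K) K r = algebraMap (𝓞 K) K q * z) {e : ℕ}
    (he : f.natDegree = e + 1) :
    ∃ g : (𝓞 K)[X], (C q * X - C r) * g = C (q ^ (e + 2)) * f := by
  obtain ⟨F, hF⟩ : ∃ F : K[X], F = f.map (algebraMap (𝓞 K) K) := ⟨_, rfl⟩
  have hroot : F.IsRoot z := by
    rw [IsRoot.def, hF, eval_map_algebraMap]
    exact hz
  obtain ⟨g0, hg0⟩ : ∃ g0 : K[X], g0 = F /ₘ (X - C z) := ⟨_, rfl⟩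
  have hmul : (X - C z) * g0 = F := by
    rw [hg0]
    exact mul_divByMonic_eq_iff_isRoot.2 hroot
  have hFd : F.natDegree ≤ e + 1 := by
    rw [hF, ← he]
    exact natDegree_map_le
  have hgd : g0.natDegree ≤ e := by
    rw [hg0, natDegree_divByMonic _ (monic_X_sub_C z), natDegree_X_sub_C]
    omega
  have hcoeff : ∀ j, g0.coeff j = F.coeff (j + 1) + z * g0.coeff (j + 1) := by
    intro j
    rw [← hmul, sub_mul, coeff_sub, coeff_X_mul, coeff_C_mul]
    ring
  have key : ∀ k j, j + k = e + 1 → ∃ s : 𝓞 K,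
      algebraMap (𝓞 K) K s = algebraMap (𝓞 K) K q ^ k * g0.coeff j := by
    intro k
    induction k with
    | zero =>
      intro j hj
      refine ⟨0, ?_⟩
      rw [coeff_eq_zero_of_natDegree_lt (by omega), map_zero, mul_zero]
    | succ k ih =>
      intro j hj
      obtain ⟨s, hs⟩ := ih (j + 1) (by omega)
      refine ⟨q ^ (k + 1) * f.coeff (j + 1) + r * s, ?_⟩
      rw [hcoeff j, map_add, map_mul, map_mul, map_pow, hs, hr, hF, coeff_map]
      ring
  have hlift : C (algebraMap (𝓞 K) K q ^ (e + 1)) * g0 ∈ Polynomial.lifts (algebraMap (𝓞 K) K) := by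
    rw [Polynomial.lifts_iff_coeff_lifts]
    intro j
    rw [coeff_C_mul]
    by_cases hj : j ≤ e + 1
    · obtain ⟨s, hs⟩ := key (e + 1 - j) j (by omega)
      refine ⟨q ^ j * s, ?_⟩
      rw [map_mul, map_pow, hs, ← mul_assoc, ← pow_add]
      congr 2
      omega
    · refine ⟨0, ?_⟩
      rw [coeff_eq_zero_of_natDegree_lt (by omega), map_zero, mul_zero]
  obtain ⟨g, hg⟩ := (Polynomial.mem_lifts _).1 hlift
  refine ⟨g, ?_⟩
  apply Polynomial.map_injective (algebraMap (𝓞 K) K) (FaithfulSMul.algebraMap_injective _ _)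
  rw [Polynomial.map_mul, Polynomial.map_mul, Polynomial.map_sub, Polynomial.map_mul,
    Polynomial.map_C, Polynomial.map_C, Polynomial.map_C, Polynomial.map_X, hg, hr, ← hF, ← hmul]
  simp only [map_pow, map_mul]
  ring

section quot

variable {f g : (𝓞 K)[X]} {q r : 𝓞 K} {N : ℕ}

theorem quot_ne (hf : f ≠ 0) (hq : q ≠ 0) (h : (C q * X - C r) * g = C (q ^ N) * f) : g ≠ 0 := by
  rintro rfl
  rw [mul_zero] at h
  have h1 : C (q ^ N) * f ≠ 0 := mul_ne_zero (by
    rw [Ne, C_eq_zero]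
    exact pow_ne_zero _ hq) hf
  exact h1 h.symm

theorem lin_deg (hq : q ≠ 0) : (C q * X - C r).natDegree = 1 := by
  rw [natDegree_sub_C, natDegree_C_mul_X _ hq]

theorem lin_lead (hq : q ≠ 0) : (C q * X - C r).leadingCoeff = q := by
  unfold leadingCoeff
  rw [lin_deg hq]
  simp

theorem quot_deg (hf : f ≠ 0) (hq : q ≠ 0) (h : (C q * X - C r) * g = C (q ^ N) * f) :
    f.natDegree = g.natDegree + 1 := by
  have hg := quot_ne hf hq h
  have hl : (C q * X - C r) ≠ 0 := by
    intro h0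
    have := lin_deg (r := r) hq
    rw [h0, natDegree_zero] at this
    omega
  have h1 := congrArg natDegree h
  rw [natDegree_mul hl hg, lin_deg hq, natDegree_C_mul (pow_ne_zero _ hq)] at h1
  omega

theorem quot_lead (hq : q ≠ 0) (h : (C q * X - C r) * g = C (q ^ N) * f) {v : Pr K}
    (hqv : q ∉ v.asIdeal) (hfv : f.leadingCoeff ∉ v.asIdeal) : g.leadingCoeff ∉ v.asIdeal := by
  intro hcon
  have h1 := congrArg leadingCoeff h
  rw [leadingCoeff_mul, leadingCoeff_mul, lin_lead hq, leadingCoeff_C] at h1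
  have h2 : q ^ N * f.leadingCoeff ∈ v.asIdeal := by
    rw [← h1]
    exact Ideal.mul_mem_left _ _ hcon
  rcases v.isPrime.mem_or_mem h2 with h3 | h3
  · exact hqv (v.isPrime.mem_of_pow_mem _ h3)
  · exact hfv h3

theorem quot_bez (h : (C q * X - C r) * g = C (q ^ N) * f) {a b : (𝓞 K)[X]} {n : 𝓞 K}
    (hab : a * f + b * derivative f = C n) :
    (a * (C q * X - C r) + b * C q) * g + (b * (C q * X - C r)) * derivative g =
      C (q ^ N * n) := by
  have h1 := congrArg derivative h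
  rw [derivative_mul, derivative_C_mul] at h1
  have h2 : derivative (C q * X - C r) = C q := by
    simp
  rw [h2] at h1
  rw [C_mul]
  linear_combination a * h + b * h1 + C (q ^ N) * hab

theorem quot_goodS (hq : q ≠ 0) (h : (C q * X - C r) * g = C (q ^ N) * f) {v : Pr K}
    (hv : GoodS f v) (hqv : q ∉ v.asIdeal) : GoodS g v := by
  obtain ⟨⟨a, b, n, hab, hn⟩, hfl⟩ := hv
  refine ⟨⟨_, _, _, quot_bez h hab, ?_⟩, quot_lead hq h hqv hfl⟩
  intro h1
  rcases v.isPrime.mem_or_mem h1 with h3 | h3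
  · exact hqv (v.isPrime.mem_of_pow_mem _ h3)
  · exact hn h3

/-- near a zero of the quotient, the linear factor is a unit -/
theorem quot_unit (h : (C q * X - C r) * g = C (q ^ N) * f) {v : Pr K}
    (hv : GoodS f v) (hqv : q ∉ v.asIdeal) {x : K} (hx : fv v x ≤ 1)
    (hg : fv v (aeval x g) < 1) :
    fv v (aeval x f) = fv v (aeval x g) := by
  obtain ⟨⟨a, b, n, hab, hn⟩, hfl⟩ := hv
  have h1 := congrArg (fun p => aeval x p) (quot_bez h hab)
  simp only [map_add, map_mul, map_sub, aeval_C, aeval_X, map_pow] at h1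
  obtain ⟨l, hl⟩ : ∃ l : K, l = algebraMap (𝓞 K) K q * x - algebraMap (𝓞 K) K r := ⟨_, rfl⟩
  rw [← hl] at h1
  have hq1 : fv v (algebraMap (𝓞 K) K q) = 1 := fv_one_of_notMem hqv
  have hl1 : fv v l ≤ 1 := by
    have := fv_int v (C q * X - C r) hx
    simpa [hl] using this
  have hl2 : fv v l = 1 := by
    refine le_antisymm hl1 ?_
    by_contra hcon
    rw [not_le] at hcon
    have h2 : fv v ((aeval x a * l + aeval x b * algebraMap (𝓞 K) K q) * aeval x g) < 1 := by
      refine fv_mul_lt ?_ hg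
      have := fv_int v (a * (C q * X - C r) + b * C q) hx
      simpa [hl] using this
    have h3 : fv v (aeval x b * l * aeval x (derivative g)) < 1 := by
      have e : aeval x b * l * aeval x (derivative g) =
        (aeval x b * aeval x (derivative g)) * l := by ring
      rw [e]
      refine fv_mul_lt ?_ hcon
      rw [map_mul]
      exact mul_le_one₀ (fv_int v b hx) ((fv v).nonneg _) (fv_int v _ hx)
    have h4 := (fv_na v _ _).trans_lt (max_lt h2 h3)
    rw [h1, map_mul, map_pow, hq1, one_pow, one_mul, fv_one_of_notMem hn] at h4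
    exact lt_irrefl _ h4
  have h5 := congrArg (fun p => fv v (aeval x p)) h
  simp only [map_mul, map_sub, aeval_C, aeval_X, map_pow] at h5
  rw [← hl, hl2, hq1, one_pow, one_mul, one_mul] at h5
  exact h5.symm

theorem quot_nu (h : (C q * X - C r) * g = C (q ^ N) * f) {v : Pr K}
    (hv : GoodS f v) (hqv : q ∉ v.asIdeal) {x : K} (hx : fv v x ≤ 1)
    (hg : fv v (aeval x g) < 1) : nu f v x = nu g v x := by
  unfold nu
  rw [mu_small f hx, mu_small g hx, quot_unit h hv hqv hx hg]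

end quot

open Classical in
/-- **SU/OD3** -/
theorem stmOD3 : StmOD3 := by
  intro K _ _ e he c0 hc0 C0 hC0 δ hδ hδ1
  have he1 : 1 ≤ e := by
    by_contra hcon
    have : e = 0 := by omega
    rw [this] at he
    exact he (by norm_num)
  obtain ⟨tw, htw⟩ : ∃ tw : ℝ, tw = totalWeight K := ⟨_, rfl⟩
  have htw0 : 0 ≤ tw := by
    rw [htw]
    exact Nat.cast_nonneg _
  obtain ⟨δ', hδ'⟩ : ∃ δ' : ℝ, δ' = min δ (1 / (8 * (tw + 1))) := ⟨_, rfl⟩
  have hδ'0 : 0 < δ' := by
    rw [hδ']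
    exact lt_min hδ (by positivity)
  have hδ'1 : δ' ≤ δ := by
    rw [hδ']
    exact min_le_left _ _
  have hδ'2 : δ' * (tw + 1) ≤ 1 / 8 := by
    have h1 : δ' ≤ 1 / (8 * (tw + 1)) := by
      rw [hδ']
      exact min_le_right _ _
    have h2 := mul_le_mul_of_nonneg_right h1 (show 0 ≤ tw + 1 by linarith)
    have h3 : 1 / (8 * (tw + 1)) * (tw + 1) = 1 / 8 := by
      field_simp
    linarith
  obtain ⟨c, hc⟩ : ∃ c : ℝ, c = c0 + C0 + (e + 1) * lossK K := ⟨_, rfl⟩
  have hloss := lossK_nonneg K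
  have hc00 : 0 ≤ c := by
    rw [hc]
    positivity
  obtain ⟨c2, hc2⟩ : ∃ c2 : ℝ, c2 = 2 * logHeight₁ (2 : K) := ⟨_, rfl⟩
  have hc20 : 0 ≤ c2 := by
    rw [hc2]
    have := zero_le_logHeight₁ (2 : K)
    positivity
  obtain ⟨C1, hC1, h2⟩ := count_all K (δ := 1) one_pos
  obtain ⟨C2, hC2, h3⟩ := count_lightU K e hδ'0
  refine ⟨C1 * Real.exp (3 * (2 * c + 1)) + C2 * Real.exp (δ' * (tw * C0 + c2) + c / 2),
    by positivity, ?_⟩
  intro f hfe Bad hBad H hH hht z hz0 hzH S hS
  obtain ⟨β, hβ⟩ : ∃ β : ℝ, β = ∑ v ∈ Bad, Real.log (Nv v) := ⟨_, rfl⟩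
  have hβ0 : 0 ≤ β := by
    rw [hβ]
    exact Finset.sum_nonneg fun v _ => (log_Nv_pos v).le
  rw [← hβ]
  obtain ⟨G, hG⟩ : ∃ G : ℝ, G = Real.exp ((2 - 1 / 16) * H + δ * β) := ⟨_, rfl⟩
  rw [← hG]
  have hG0 : 0 < G := by rw [hG]; exact Real.exp_pos _
  have hG1 : 1 ≤ G := by
    rw [hG]
    refine Real.one_le_exp ?_
    have : 0 ≤ δ * β := by positivity
    linarith
  by_cases hcase : H ≤ 2 * c + 1
  · have h5 := h2 H hH S fun x hx => (hS x hx).1
    have h6 : Real.exp ((2 + 1) * H) ≤ Real.exp (3 * (2 * c + 1)) :=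
      Real.exp_le_exp.2 (by linarith)
    have h7 : 0 ≤ C2 * Real.exp (δ' * (tw * C0 + c2) + c / 2) * G := by positivity
    have h8 : 0 ≤ C1 * Real.exp (3 * (2 * c + 1)) := by positivity
    calc (S.card : ℝ) ≤ C1 * Real.exp ((2 + 1) * H) := h5
      _ ≤ C1 * Real.exp (3 * (2 * c + 1)) := mul_le_mul_of_nonneg_left h6 hC1.le
      _ ≤ C1 * Real.exp (3 * (2 * c + 1)) * G := le_mul_of_one_le_right h8 hG1
      _ ≤ _ := by
        rw [add_mul]
        linarith
  rw [not_le] at hcase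
  have hf0 : f ≠ 0 := by
    rintro rfl
    rw [natDegree_zero] at hfe
    omega
  have hlossc : lossK K ≤ c := by
    rw [hc]
    have : (0 : ℝ) ≤ e := Nat.cast_nonneg _
    nlinarith
  have hC0c : C0 + lossK K ≤ c := by
    rw [hc]
    have : (0 : ℝ) ≤ e := Nat.cast_nonneg _
    nlinarith
  by_cases he2 : e = 1
  · -- degree one
    have hSe : S = ∅ := by
      rw [Finset.eq_empty_iff_forall_notMem]
      intro x hx
      obtain ⟨hxH, hx0, v0, hv0, hv2, hv3⟩ := hS x hx
      have hgs := (hBad v0 hv0).2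
      obtain ⟨hx1, hx2⟩ := le_nu hgs.2 hx0 (n := 2) (by norm_num) hv2
      have hxz : x ≠ z := by
        rintro rfl
        exact hx0 hz0
      -- `f = a X + b`
      have hfx : aeval x f = algebraMap (𝓞 K) K f.leadingCoeff * (x - z) := by
        have e1 : f = C (f.coeff 1) * X + C (f.coeff 0) :=
          eq_X_add_C_of_natDegree_le_one (by omega)
        have e2 : f.leadingCoeff = f.coeff 1 := by
          unfold leadingCoeff
          rw [hfe, he2]
        rw [e2]
        have h4 : aeval x f - aeval z f = algebraMap (𝓞 K) K (f.coeff 1) * (x - z) := by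
          rw [e1]
          simp
          ring
        rw [hz0, sub_zero] at h4
        exact h4
      have hfv : fv v0 (aeval x f) = fv v0 (x - z) := by
        rw [hfx, map_mul, fv_one_of_notMem hgs.2, one_mul]
      rw [hfv] at hx2
      have h5 := sum_lam_le (aff_ne_zero x) (aff_ne_zero z) (aff_wedge hxz)
        ({Sum.inr v0} : Finset (Pl K))
      rw [Finset.sum_singleton] at h5
      have h6 : ((2 : ℕ) : ℝ) * Real.log (Nv v0) ≤ lam (Sum.inr v0) (aff x) (aff z) := by
        show ((2 : ℕ) : ℝ) * Real.log (Nv v0) ≤ lamA (fv v0) (aff x) (aff z)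
        rw [le_lamA_iff (fv v0) (aff_ne_zero x) (aff_ne_zero z) (aff_wedge hxz)]
        have e1 : (aff x).1 * (aff z).2 - (aff x).2 * (aff z).1 = x - z := by
          simp only [aff, mul_one, one_mul]
        rw [e1]
        refine hx2.trans ?_
        refine le_mul_of_one_le_right (Real.exp_pos _).le ?_
        have h5 : (1 : ℝ) ≤ max (fv v0 (aff x).1) (fv v0 (aff x).2) := by
          refine le_trans ?_ (le_max_right _ _)
          show 1 ≤ fv v0 1
          rw [map_one]
        have h6 : (1 : ℝ) ≤ max (fv v0 (aff z).1) (fv v0 (aff z).2) := by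
          refine le_trans ?_ (le_max_right _ _)
          show 1 ≤ fv v0 1
          rw [map_one]
        nlinarith
      push_cast at h6
      linarith
    rw [hSe, Finset.card_empty, Nat.cast_zero]
    positivity
  -- the quotient
  have he3 : 3 ≤ e := by
    by_contra hcon
    have : e = 2 := by omega
    rw [this] at he
    exact he (by norm_num)
  obtain ⟨q, hq, hqz, hqs⟩ := den_fin (Finset.univ : Finset Unit) (fun _ => z)
  obtain ⟨r, hrq⟩ := hqz () (Finset.mem_univ _)
  obtain ⟨g, hg⟩ := exists_quot f hz0 hrq (e := e - 1) (by omega)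
  have hgd : g.natDegree = e - 1 := by
    have := quot_deg hf0 hq hg
    omega
  have hq' : algebraMap (𝓞 K) K q ≠ 0 := by
    rw [Ne, FaithfulSMul.algebraMap_eq_zero_iff]
    exact hq
  obtain ⟨Bad', hBad'⟩ : ∃ Bad' : Finset (Pr K), Bad' = Bad ∪ (su (algebraMap (𝓞 K) K q) ∪
    su (2 : K)) := ⟨_, rfl⟩
  have hB : ∀ v ∉ Bad', v ∉ Bad ∧ q ∉ v.asIdeal ∧ (2 : 𝓞 K) ∉ v.asIdeal := by
    intro v hv
    rw [hBad', Finset.mem_union, Finset.mem_union, not_or, not_or] at hv
    refine ⟨hv.1, notMem_of_notMem_su hq' rfl hv.2.1, ?_⟩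
    exact notMem_of_notMem_su (n := (2 : 𝓞 K)) (z := (2 : K)) two_ne_zero (map_ofNat _ 2) hv.2.2
  have hβ' : ∑ v ∈ Bad', Real.log (Nv v) ≤ β + tw * (9 / 8 * H + C0) + c2 := by
    have h5 : ∑ v ∈ Bad', Real.log (Nv v) = sl Bad' := rfl
    have h6 : β = sl Bad := hβ
    rw [h5, hBad']
    have h7 := sl_union Bad (su (algebraMap (𝓞 K) K q) ∪ su (2 : K))
    have h8 := sl_union (su (algebraMap (𝓞 K) K q)) (su (2 : K))
    have h9 := sl_su_le (2 : K)
    rw [Finset.sum_const, Finset.card_univ, Fintype.card_unit, one_smul, ← htw, ← hr_aff] at hqs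
    have h10 : 2 * tw * hr (aff z) ≤ tw * (9 / 8 * H + C0) := by
      have := mul_le_mul_of_nonneg_left hzH htw0
      linarith
    rw [hc2, h6]
    linarith
  have hgood : ∀ v ∉ Bad', Good g v := by
    intro v hv
    obtain ⟨hv1, hv2, hv3⟩ := hB v hv
    exact good_of_goodS (quot_goodS hq hg (hBad v hv1).2 hv2) (by omega) hv3
  have hgx : ∀ x : K, aeval x f ≠ 0 → aeval x g ≠ 0 := by
    intro x hx h0
    have h5 := congrArg (fun p => aeval x p) hg
    simp only [map_mul, aeval_C, map_pow] at h5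
    rw [h0, mul_zero] at h5
    exact mul_ne_zero (pow_ne_zero _ hq') hx h5.symm
  have key : ∀ x ∈ S, ∑ v ∈ od (aeval x g) \ Bad', Real.log (Nv v) ≤ 9 / 8 * H + c := by
    intro x hx
    obtain ⟨hxH, hx0, v0, hv0, hv2, hv3⟩ := hS x hx
    have hsum := sum_nu_ht f Bad (fun v hv => (hBad v hv).2.2) hx0
    have hl0 := log_Nv_pos v0
    have hv0d : v0 ∈ dv f x \ Bad := by
      rw [Finset.mem_sdiff]
      exact ⟨(mem_dv_iff hx0 (hBad v0 hv0).2.2).2 (by omega), hv0⟩
    rw [← Finset.add_sum_erase _ _ hv0d, hfe] at hsum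
    obtain ⟨Q, hQ⟩ : ∃ Q : ℝ, Q = ∑ v ∈ (dv f x \ Bad).erase v0,
      (nu f v x : ℝ) * Real.log (Nv v) := ⟨_, rfl⟩
    rw [← hQ] at hsum
    have h7 : 0 ≤ Q := by
      rw [hQ]
      exact Finset.sum_nonneg fun v _ => mul_nonneg (Nat.cast_nonneg _) (log_Nv_pos v).le
    have heH : (e : ℝ) * hr (aff x) ≤ e * H := mul_le_mul_of_nonneg_left hxH (Nat.cast_nonneg _)
    have hsum' : (nu f v0 x : ℝ) * Real.log (Nv v0) + Q ≤ 5 * H + c := by
      rw [hc]
      linarith
    have h8 : (2 : ℝ) ≤ nu f v0 x := by exact_mod_cast hv2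
    have hH2 : 0 ≤ (2 - 1 / 16) * H := by positivity
    have h9 : 2 * ((2 - 1 / 16) * H) ≤ nu f v0 x * Real.log (Nv v0) :=
      mul_le_mul h8 hv3 hH2 (by linarith)
    have hnu : nu f v0 x = 2 := by
      by_contra hcon
      have h10 : (3 : ℝ) ≤ nu f v0 x := by
        have : 3 ≤ nu f v0 x := by omega
        exact_mod_cast this
      have h11 : 3 * ((2 - 1 / 16) * H) ≤ nu f v0 x * Real.log (Nv v0) :=
        mul_le_mul h10 hv3 hH2 (by linarith)
      linarith
    have h10 : od (aeval x g) \ Bad' ⊆ (dv f x \ Bad).erase v0 := by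
      intro v hv
      obtain ⟨hva, hvb⟩ := Finset.mem_sdiff.1 hv
      obtain ⟨hv1, hv2', hv3'⟩ := hB v hvb
      have hgl := quot_lead hq hg hv2' (hBad v hv1).2.2
      obtain ⟨h11, h12⟩ := od_nu hgl (hgx x hx0) (by
        rw [hgd]
        exact Nat.Odd.sub_odd (Nat.not_even_iff_odd.1 he) odd_one) hva
      obtain ⟨h13, h14⟩ := (nu_pos_iff hgl (hgx x hx0)).1 h11
      have h15 := quot_nu hg (hBad v hv1).2 hv2' h13 h14
      rw [← h15] at h11 h12
      rw [Finset.mem_erase, Finset.mem_sdiff]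
      refine ⟨?_, (mem_dv_iff hx0 (hBad v hv1).2.2).2 h11, hv1⟩
      rintro rfl
      rw [hnu] at h12
      exact h12 (by norm_num)
    have h11 : ∑ v ∈ od (aeval x g) \ Bad', Real.log (Nv v) ≤ Q := by
      rw [hQ]
      refine (Finset.sum_le_sum_of_subset_of_nonneg h10 fun v _ _ => (log_Nv_pos v).le).trans ?_
      refine Finset.sum_le_sum fun v hv => ?_
      obtain ⟨-, hv⟩ := Finset.mem_erase.1 hv
      obtain ⟨hva, hvb⟩ := Finset.mem_sdiff.1 hv
      have h12 : (1 : ℝ) ≤ nu f v x := by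
        exact_mod_cast (mem_dv_iff hx0 (hBad v hvb).2.2).1 hva
      exact le_mul_of_one_le_left (log_Nv_pos v).le h12
    linarith
  have h5 := h3 g (by omega) (by omega) Bad' hgood H hH (9 / 8 * H + c) (by linarith) S
    fun x hx => ⟨(hS x hx).1, hgx x (hS x hx).2.1, key x hx⟩
  have h6 : Real.exp ((1 + δ') * H + δ' * ∑ v ∈ Bad', Real.log (Nv v) + (9 / 8 * H + c) / 2) ≤
      Real.exp (δ' * (tw * C0 + c2) + c / 2) * G := by
    rw [hG, ← Real.exp_add]
    refine Real.exp_le_exp.2 ?_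
    have h7 := mul_le_mul_of_nonneg_left hβ' hδ'0.le
    have h8 : δ' * β ≤ δ * β := mul_le_mul_of_nonneg_right hδ'1 hβ0
    have h9 : δ' * (tw + 1) * H ≤ 1 / 8 * H := mul_le_mul_of_nonneg_right hδ'2 hH
    have h10 : 0 ≤ δ' * tw * H := by positivity
    have h11 : 0 ≤ δ' * H := by positivity
    have h12 : δ' * (β + tw * (9 / 8 * H + C0) + c2) = δ' * β + 9 / 8 * (δ' * tw * H) +
      δ' * (tw * C0 + c2) := by ring
    have h13 : δ' * (tw + 1) * H = δ' * tw * H + δ' * H := by ring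
    linarith
  have h7 : 0 ≤ C1 * Real.exp (3 * (2 * c + 1)) * G := by positivity
  calc (S.card : ℝ) ≤ C2 * Real.exp ((1 + δ') * H + δ' * ∑ v ∈ Bad', Real.log (Nv v) +
        (9 / 8 * H + c) / 2) := h5
    _ ≤ C2 * (Real.exp (δ' * (tw * C0 + c2) + c / 2) * G) := mul_le_mul_of_nonneg_left h6 hC2.le
    _ ≤ _ := by
      rw [add_mul, ← mul_assoc]
      linarith

end Pool.Agent.N478.SU

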